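import Mathlib
import Pool.Agent.P.MP_fa84b3_gt.Zero

set_option autoImplicit false

namespace Pool.Agent.Results.MP_fa84b3_gt.CosmicSquare

/-- Let X be Tychonoff with C_p(X) Lindelöf and let g be a condensation of C_p(X) onto a
σ-compact Tychonoff space Y. If C_p(X) × C_p(X) is Lindelöf, or X is strongly zero-dimensional,
then Y is cosmic. -/
theorem result :
    ∀ (X : Type) [TopologicalSpace X] [T35Space X],
      LindelofSpace {f : X → ℝ // Continuous f} →
      (LindelofSpace ({f : X → ℝ // Continuous f} × {f : X → ℝ // Continuous f}) ∨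
        ∀ f : X → ℝ, Continuous f → ∃ U : Set X, IsClopen U ∧
          (∀ x, f x = 0 → x ∈ U) ∧ ∀ x, f x = 1 → x ∉ U) →
      ∀ (Y : Type) [TopologicalSpace Y] [T35Space Y],
        SigmaCompactSpace Y →
        ∀ g : {f : X → ℝ // Continuous f} → Y,
          Continuous g → Function.Bijective g →
          ∃ 𝒩 : Set (Set Y), 𝒩.Countable ∧
            ∀ y : Y, ∀ U : Set Y, IsOpen U → y ∈ U → ∃ N ∈ 𝒩, y ∈ N ∧ N ⊆ U := by
  intro X _ _ hL h Y _ _ hY g hg hb
  have hsep := P.MP_fa84b3_gt.separable (X := X) g hg hb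
  have h2 : LindelofSpace (P.MP_fa84b3_gt.Cp X × P.MP_fa84b3_gt.Cp X) :=
    h.elim id fun h => P.MP_fa84b3_gt.lindelof_square h
  exact P.MP_fa84b3_gt.cosmic_of_square (X := X) g hg hb

end Pool.Agent.Results.MP_fa84b3_gt.CosmicSquare
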