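import Mathlib
import Pool.Agent.P.MP_fa84b3_gt.Cp

set_option autoImplicit false

namespace Pool.Agent.Results.MP_fa84b3_gt.Separable

/-- Let X be Tychonoff with C_p(X) Lindelöf and let g be a condensation of C_p(X) onto a
σ-compact Tychonoff space Y. Then X is separable. -/
theorem result :
    ∀ (X : Type) [TopologicalSpace X] [T35Space X],
      LindelofSpace {f : X → ℝ // Continuous f} →
      ∀ (Y : Type) [TopologicalSpace Y] [T35Space Y],
        SigmaCompactSpace Y →
        ∀ g : {f : X → ℝ // Continuous f} → Y,
          Continuous g → Function.Bijective g →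
          TopologicalSpace.SeparableSpace X := by
  intro X _ _ hL Y _ _ hY g hg hb
  exact P.MP_fa84b3_gt.separable (X := X) g hg hb

end Pool.Agent.Results.MP_fa84b3_gt.Separable
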